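import Pool.Agent.H26.QQ.Targets

set_option autoImplicit false

open Finset

namespace Pool.Agent.H32.QQ

open Pool.Agent.H26.QQ

theorem prodPow_dvd (D : Finset ℕ) (E : ℕ) (F : ℤ)
    (hD : ∀ l ∈ D, l.Prime ∧ (l : ℤ) ^ E ∣ F) : ((∏ l ∈ D, l : ℕ) : ℤ) ^ E ∣ F := by
  have h1 : (((∏ l ∈ D, l : ℕ) : ℤ)) ^ E = ∏ l ∈ D, ((l : ℤ) ^ E) := by
    rw [Nat.cast_prod, Finset.prod_pow]
  rw [h1]
  refine Finset.prod_dvd_of_coprime ?_ (fun l hl => (hD l hl).2)
  intro l hl m hm hlm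
  have : IsCoprime (l : ℤ) (m : ℤ) := by
    rw [Nat.isCoprime_iff_coprime]
    exact (Nat.coprime_primes (hD l hl).1 (hD m hm).1).2 hlm
  exact this.pow

theorem pf_CHP (hPCK : T_PCK) : T_CHP := by
  intro η γ Y E F hη hγ hγη hE hY hDust
  obtain ⟨D, hD, hYD⟩ := hDust
  have hY0 : (0 : ℝ) < Y := by linarith
  have hY1 : (1 : ℝ) ≤ Y := by linarith
  have hA : (1 : ℝ) ≤ Y ^ η := Real.one_le_rpow hY1 hη.le
  have hG : (1 : ℝ) ≤ Y ^ γ := Real.one_le_rpow hY1 hγ.le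
  obtain ⟨D', hD'D, hlow, hup⟩ := hPCK (Y ^ η) (Y ^ γ) D hA hG
    (fun l hl => ⟨(hD l hl).1.one_lt.le, (hD l hl).2.1⟩) hYD
  have hP : ∀ l ∈ D', l.Prime := fun l hl => (hD l (hD'D hl)).1
  set P : ℕ := ∏ l ∈ D', l with hPdef
  have hcast : ((P : ℕ) : ℝ) = ∏ l ∈ D', (l : ℝ) := by
    rw [hPdef, Nat.cast_prod]
  have hP1 : 1 ≤ P := Finset.prod_pos (fun l hl => (hP l hl).pos)
  have hE0 : E ≠ 0 := by
    rintro rfl
    have h2 : (0 : ℝ) < 2 / η := by positivity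
    simp at hE
    linarith
  refine ⟨P ^ E, Nat.one_le_pow _ _ hP1, ?_, ?_, ?_⟩
  · have := prodPow_dvd D' E F (fun l hl => ⟨hP l hl, (hD l (hD'D hl)).2.2⟩)
    push_cast
    push_cast at this
    rw [hPdef]
    push_cast
    exact this
  · push_cast
    rw [hcast]
    have h1 : Y ^ (2 : ℝ) ≤ Y ^ (η * (E : ℝ)) := by
      apply Real.rpow_le_rpow_of_exponent_le hY1
      have := (div_le_iff₀ hη).1 hE
      linarith
    have h2 : Y ^ (η * (E : ℝ)) = (Y ^ η) ^ E := by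
      rw [Real.rpow_mul hY0.le, Real.rpow_natCast]
    have h3 : (Y ^ η) ^ E ≤ (∏ l ∈ D', (l : ℝ)) ^ E :=
      pow_le_pow_left₀ (by positivity) hlow E
    linarith [h1, h2.le, h3]
  · have hsub : (P ^ E).primeFactors ⊆ D' := by
      intro p hp
      rw [Nat.primeFactors_pow _ hE0] at hp
      have hpp := Nat.prime_of_mem_primeFactors hp
      have hpd := Nat.dvd_of_mem_primeFactors hp
      rw [hPdef] at hpd
      obtain ⟨l, hl, hpl⟩ := (hpp.prime.dvd_finsetProd_iff (fun l : ℕ => l)).1 hpd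
      have := (Nat.prime_dvd_prime_iff_eq hpp (hP l hl)).1 hpl
      rw [this]; exact hl
    have hrad : Pool.Agent.H38.AE.rad (P ^ E) ≤ P := by
      unfold Pool.Agent.H38.AE.rad
      rw [hPdef]
      exact Finset.prod_le_prod_of_subset_of_one_le' hsub
        (fun l hl _ => (hP l hl).one_lt.le)
    have h1 : (Pool.Agent.H38.AE.rad (P ^ E) : ℝ) ≤ P := by exact_mod_cast hrad
    have h2 : (P : ℝ) ≤ Y ^ η * Y ^ γ := by rw [hcast]; exact hup
    have h3 : Y ^ η * Y ^ γ ≤ Y ^ (2 * η) := by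
      rw [← Real.rpow_add hY0]
      apply Real.rpow_le_rpow_of_exponent_le hY1
      linarith
    linarith

end Pool.Agent.H32.QQ
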